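import Mathlib

/-!
# The number of states of transition-minimal NFAs is not linear in the nondeterministic state
complexity
-/

set_option autoImplicit false

namespace Pool.Agent.Results.MP_48fb2a_lc.UnboundedRatio

open scoped Classical

/-- An NFA over the alphabet `S`: a finite set of states, one start state, accepting states and a
finite set of transitions. -/
structure Aut (S : Type) where
  Q : Type
  [fin : Fintype Q]
  start : Q
  final : Finset Q
  δ : Finset (Q × S × Q)

attribute [instance] Aut.fin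

variable {S : Type}

/-- the word is accepted from the state `q` -/
def Aut.acc (A : Aut S) : A.Q → List S → Prop
  | q, [] => q ∈ A.final
  | q, a :: w => ∃ q', (q, a, q') ∈ A.δ ∧ A.acc q' w

/-- the accepted language -/
def Aut.lang (A : Aut S) : Language S := {w | A.acc A.start w}

/-- the least number of states of an NFA for `L` -/
noncomputable def nsc (L : Language S) : ℕ :=
  sInf {n | ∃ A : Aut S, A.lang = L ∧ Fintype.card A.Q = n}

/-- the least number of transitions of an NFA for `L` -/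
noncomputable def tc (L : Language S) : ℕ :=
  sInf {n | ∃ A : Aut S, A.lang = L ∧ A.δ.card = n}

/-- the least number of states of a transition-minimal NFA for `L` -/
noncomputable def T (L : Language S) : ℕ :=
  sInf {n | ∃ A : Aut S, A.lang = L ∧ A.δ.card = tc L ∧ Fintype.card A.Q = n}

theorem exists_T {A : Aut S} {L : Language S} (hA : A.lang = L) :
    ∃ B : Aut S, B.lang = L ∧ B.δ.card ≤ A.δ.card ∧ Fintype.card B.Q = T L := by
  have h1 : {n | ∃ A : Aut S, A.lang = L ∧ A.δ.card = n}.Nonempty := ⟨_, A, hA, rfl⟩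
  obtain ⟨B, hB1, hB2⟩ := Nat.sInf_mem h1
  have h2 : {n | ∃ A : Aut S, A.lang = L ∧ A.δ.card = tc L ∧ Fintype.card A.Q = n}.Nonempty :=
    ⟨_, B, hB1, hB2, rfl⟩
  obtain ⟨B', hB1', hB2', hB3'⟩ := Nat.sInf_mem h2
  refine ⟨B', hB1', ?_, hB3'⟩
  rw [hB2']
  exact Nat.sInf_le ⟨A, hA, rfl⟩

theorem nsc_le {A : Aut S} {L : Language S} (hA : A.lang = L) : nsc L ≤ Fintype.card A.Q :=
  Nat.sInf_le ⟨A, hA, rfl⟩

/-! ### Regularity -/

theorem acc_iff_nfa (A : Aut S) (w : List S) : ∀ (q : A.Q) (s : Set A.Q), q ∈ s →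
    A.acc q w → ∃ q' ∈ A.final,
      q' ∈ (⟨fun q a => {q' | (q, a, q') ∈ A.δ}, {A.start}, {q | q ∈ A.final}⟩ :
        NFA S A.Q).evalFrom s w := by
  induction w with
  | nil => intro q s hq h; exact ⟨q, h, hq⟩
  | cons a w ih =>
    rintro q s hq ⟨q', h1, h2⟩
    obtain ⟨q'', h3, h4⟩ := ih q' _ (show q' ∈ (⟨fun q a => {q' | (q, a, q') ∈ A.δ}, {A.start},
      {q | q ∈ A.final}⟩ : NFA S A.Q).stepSet s a from NFA.mem_stepSet.2 ⟨q, hq, h1⟩) h2
    exact ⟨q'', h3, h4⟩

theorem nfa_acc (A : Aut S) (w : List S) : ∀ (s : Set A.Q) (q' : A.Q), q' ∈ A.final →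
      q' ∈ (⟨fun q a => {q' | (q, a, q') ∈ A.δ}, {A.start}, {q | q ∈ A.final}⟩ :
        NFA S A.Q).evalFrom s w → ∃ q ∈ s, A.acc q w := by
  induction w with
  | nil => intro s q' h1 h2; exact ⟨q', h2, h1⟩
  | cons a w ih =>
    intro s q' h1 h2
    obtain ⟨q, h3, h4⟩ := ih _ q' h1 h2
    obtain ⟨p, hp1, hp2⟩ := NFA.mem_stepSet.1 h3
    exact ⟨p, hp1, q, hp2, h4⟩

theorem Aut.regular (A : Aut S) : A.lang.IsRegular := by
  refine ⟨Set A.Q, inferInstance, (⟨fun q a => {q' | (q, a, q') ∈ A.δ}, {A.start},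
    {q | q ∈ A.final}⟩ : NFA S A.Q).toDFA, ?_⟩
  rw [NFA.toDFA_correct]
  ext w
  rw [NFA.mem_accepts]
  constructor
  · rintro ⟨q, h1, h2⟩
    obtain ⟨q', h3, h4⟩ := nfa_acc A w _ q h1 h2
    rw [Set.mem_singleton_iff.1 h3] at h4
    exact h4
  · intro h
    obtain ⟨q, h1, h2⟩ := acc_iff_nfa A w A.start {A.start} rfl h
    exact ⟨q, h1, h2⟩

/-! ### The languages -/

/-- words of length `l` -/
abbrev V (l : ℕ) : Type := List.Vector Bool l

/-- the language of the words `x 0 0 y` with `(x, y) ∈ C` -/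
def LC (e : Bool → S) {l : ℕ} (C : Finset (V l × V l)) : Language S :=
  {w | ∃ x y : V l, (x, y) ∈ C ∧
    w = x.toList.map e ++ (e false :: e false :: y.toList.map e)}

theorem LC_injective {e : Bool → S} (he : Function.Injective e) (l : ℕ) :
    Function.Injective (LC e : Finset (V l × V l) → Language S) := by
  have key : ∀ C D : Finset (V l × V l), LC e C = LC e D → C ⊆ D := by
    rintro C D h ⟨x, y⟩ hxy
    have h1 : x.toList.map e ++ (e false :: e false :: y.toList.map e) ∈ LC e C :=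
      ⟨x, y, hxy, rfl⟩
    rw [h] at h1
    obtain ⟨x', y', h2, h3⟩ := h1
    have h4 := List.append_inj h3 (by simp)
    have h5 : x = x' := by
      apply List.Vector.toList_injective
      exact List.map_injective_iff.2 he h4.1
    have h6 : y = y' := by
      apply List.Vector.toList_injective
      apply List.map_injective_iff.2 he
      simpa using h4.2
    rw [h5, h6]
    exact h2
  intro C D h
  exact Finset.Subset.antisymm (key C D h) (key D C h.symm)

/-- the words of length at most `l` -/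
abbrev Pre (l : ℕ) : Type := {u : List Bool // u.length ≤ l}

/-- a numbering of the words -/
def enc : List Bool → ℕ
  | [] => 1
  | b :: u => 2 * enc u + b.toNat

theorem enc_pos (u : List Bool) : 1 ≤ enc u := by
  induction u with
  | nil => simp [enc]
  | cons b u ih => simp only [enc]; omega

theorem enc_lt (u : List Bool) : enc u < 2 ^ (u.length + 1) := by
  induction u with
  | nil => simp [enc]
  | cons b u ih =>
    simp only [enc, List.length_cons]
    rw [pow_succ]
    have := Bool.toNat_le b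
    omega

theorem enc_injective : Function.Injective enc := by
  intro u
  induction u with
  | nil =>
    intro v h
    rcases v with _ | ⟨b, v⟩
    · rfl
    · simp only [enc] at h
      have := enc_pos v
      omega
  | cons a u ih =>
    intro v h
    rcases v with _ | ⟨b, v⟩
    · simp only [enc] at h
      have := enc_pos u
      omega
    · simp only [enc] at h
      have h1 := Bool.toNat_le a
      have h2 := Bool.toNat_le b
      have h3 : enc u = enc v := by omega
      have h4 : a.toNat = b.toNat := by omega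
      rw [ih h3]
      congr 1
      revert h4
      cases a <;> cases b <;> simp

instance (l : ℕ) : Finite (Pre l) := by
  refine Finite.of_injective (fun u : Pre l => (⟨enc u.1, ?_⟩ : Fin (2 ^ (l + 1)))) ?_
  · exact (enc_lt u.1).trans_le (Nat.pow_le_pow_right (by norm_num) (by have := u.2; omega))
  · intro u v h
    exact Subtype.ext (enc_injective (Fin.mk.inj h))

noncomputable instance (l : ℕ) : Fintype (Pre l) := Fintype.ofFinite _

theorem card_Pre (l : ℕ) : Fintype.card (Pre l) ≤ 2 * 2 ^ l := by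
  have h := Fintype.card_le_of_injective (fun u : Pre l => (⟨enc u.1,
    (enc_lt u.1).trans_le (Nat.pow_le_pow_right (by norm_num) (by have := u.2; omega))⟩ :
      Fin (2 ^ (l + 1)))) (by
    intro u v h
    exact Subtype.ext (enc_injective (Fin.mk.inj h)))
  rw [Fintype.card_fin, pow_succ] at h
  omega

section Construction

variable (e : Bool → S) {l : ℕ} {Mi : Type} [Fintype Mi] (R1 : Finset (V l × Mi))
  (R2 : Finset (Mi × V l))

/-- the transition relation of the automaton with the middle layer `Mi` -/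
def Rel : Pre l ⊕ (Mi ⊕ Pre l) → S → Pre l ⊕ (Mi ⊕ Pre l) → Prop
  | .inl u, a, .inl u' => ∃ b, a = e b ∧ u'.1 = u.1 ++ [b]
  | .inl u, a, .inr (.inl m) => a = e false ∧ ∃ h : u.1.length = l, (⟨u.1, h⟩, m) ∈ R1
  | .inr (.inl m), a, .inr (.inr v) => a = e false ∧ ∃ h : v.1.length = l, (m, ⟨v.1, h⟩) ∈ R2
  | .inr (.inr v), a, .inr (.inr v') => ∃ b, a = e b ∧ v.1 = b :: v'.1
  | _, _, _ => False

variable [Fintype S]

/-- the automaton with the middle layer `Mi` -/
noncomputable def aut : Aut S where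
  Q := Pre l ⊕ (Mi ⊕ Pre l)
  start := .inl ⟨[], Nat.zero_le _⟩
  final := {.inr (.inr ⟨[], Nat.zero_le _⟩)}
  δ := Finset.univ.filter fun t => Rel e R1 R2 t.1 t.2.1 t.2.2

theorem mem_δ {q q' : Pre l ⊕ (Mi ⊕ Pre l)} {a : S} :
    (q, a, q') ∈ (aut e R1 R2).δ ↔ Rel e R1 R2 q a q' := by
  change (q, a, q') ∈ Finset.univ.filter (fun t : (Pre l ⊕ (Mi ⊕ Pre l)) × S ×
    (Pre l ⊕ (Mi ⊕ Pre l)) => Rel e R1 R2 t.1 t.2.1 t.2.2) ↔ _
  simp

theorem acc_suf (w : List S) : ∀ v : Pre l, (aut e R1 R2).acc (.inr (.inr v)) w ↔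
    w = v.1.map e := by
  induction w with
  | nil =>
    intro v
    change (Sum.inr (Sum.inr v) : Pre l ⊕ (Mi ⊕ Pre l)) ∈
      ({.inr (.inr ⟨[], Nat.zero_le _⟩)} : Finset _) ↔ _
    rw [Finset.mem_singleton]
    constructor
    · intro h
      have h1 := Sum.inr.inj (Sum.inr.inj h)
      rw [h1]
      rfl
    · intro h
      congr 2
      apply Subtype.ext
      have := congrArg List.length h
      simp only [List.length_nil, List.length_map] at this
      exact List.eq_nil_of_length_eq_zero this.symm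
  | cons a w ih =>
    intro v
    constructor
    · rintro ⟨q', h1, h2⟩
      replace h1 := (mem_δ e R1 R2).1 h1
      rcases q' with q' | q' | q'
      · exact h1.elim
      · exact h1.elim
      · obtain ⟨b, h3, h4⟩ := h1
        rw [h4, h3, List.map_cons, (ih q').1 h2]
    · intro h
      obtain ⟨v, hv⟩ := v
      rcases v with _ | ⟨b, v⟩
      · simp at h
      · simp only [List.map_cons, List.cons.injEq] at h
        have hv' : v.length ≤ l := by simp only [List.length_cons] at hv; omega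
        refine ⟨.inr (.inr ⟨v, hv'⟩), ?_, (ih _).2 h.2⟩
        exact (mem_δ e R1 R2).2 ⟨b, h.1, rfl⟩

theorem acc_mid (w : List S) (m : Mi) : (aut e R1 R2).acc (.inr (.inl m)) w ↔
    ∃ y : V l, (m, y) ∈ R2 ∧ w = e false :: y.toList.map e := by
  constructor
  · intro h
    rcases w with _ | ⟨a, w⟩
    · have h1 : (Sum.inr (Sum.inl m) : Pre l ⊕ (Mi ⊕ Pre l)) ∈
        ({.inr (.inr ⟨[], Nat.zero_le _⟩)} : Finset _) := h
      rw [Finset.mem_singleton] at h1
      cases h1
    · obtain ⟨q', h1, h2⟩ := h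
      replace h1 := (mem_δ e R1 R2).1 h1
      rcases q' with q' | q' | q'
      · exact h1.elim
      · exact h1.elim
      · obtain ⟨h3, h4, h5⟩ := h1
        refine ⟨⟨q'.1, h4⟩, h5, ?_⟩
        rw [h3, (acc_suf e R1 R2 w q').1 h2]
        rfl
  · rintro ⟨y, h1, rfl⟩
    refine ⟨.inr (.inr ⟨y.toList, by simp⟩), ?_, ?_⟩
    · exact (mem_δ e R1 R2).2 ⟨rfl, by simp, h1⟩
    · exact (acc_suf e R1 R2 _ _).2 rfl

theorem acc_pre (w : List S) : ∀ u : Pre l, (aut e R1 R2).acc (.inl u) w ↔
    ∃ (x' : List Bool) (h : (u.1 ++ x').length = l) (m : Mi) (y : V l),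
      (⟨u.1 ++ x', h⟩, m) ∈ R1 ∧ (m, y) ∈ R2 ∧
      w = x'.map e ++ (e false :: e false :: y.toList.map e) := by
  induction w with
  | nil =>
    intro u
    constructor
    · intro h
      have h1 : (Sum.inl u : Pre l ⊕ (Mi ⊕ Pre l)) ∈
        ({.inr (.inr ⟨[], Nat.zero_le _⟩)} : Finset _) := h
      rw [Finset.mem_singleton] at h1
      cases h1
    · rintro ⟨x', h, m, y, _, _, h3⟩
      simp at h3
  | cons a w ih =>
    intro u
    constructor
    · rintro ⟨q', h1, h2⟩
      replace h1 := (mem_δ e R1 R2).1 h1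
      rcases q' with u' | m | q'
      · obtain ⟨b, h3, h4⟩ := h1
        obtain ⟨x', h, m, y, h5, h6, h7⟩ := (ih u').1 h2
        have h8 : u'.1 ++ x' = u.1 ++ (b :: x') := by rw [h4]; simp
        refine ⟨b :: x', by rw [← h8]; exact h, m, y, ?_, h6, ?_⟩
        · have : (⟨u.1 ++ (b :: x'), by rw [← h8]; exact h⟩ : V l) = ⟨u'.1 ++ x', h⟩ :=
            Subtype.ext h8.symm
          rw [this]
          exact h5
        · rw [h3, h7]
          rfl
      · obtain ⟨h3, h4, h5⟩ := h1
        obtain ⟨y, h6, h7⟩ := (acc_mid e R1 R2 w m).1 h2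
        refine ⟨[], by simpa using h4, m, y, ?_, h6, ?_⟩
        · have : (⟨u.1 ++ [], by simpa using h4⟩ : V l) = ⟨u.1, h4⟩ := Subtype.ext (by simp)
          rw [this]
          exact h5
        · rw [h3, h7]
          rfl
      · exact h1.elim
    · rintro ⟨x', h, m, y, h1, h2, h3⟩
      rcases x' with _ | ⟨b, x'⟩
      · simp only [List.map_nil, List.nil_append, List.cons.injEq] at h3
        refine ⟨.inr (.inl m), ?_, (acc_mid e R1 R2 w m).2 ⟨y, h2, h3.2⟩⟩
        refine (mem_δ e R1 R2).2 ⟨h3.1, by simpa using h, ?_⟩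
        have : (⟨u.1 ++ [], h⟩ : V l) = ⟨u.1, by simpa using h⟩ := Subtype.ext (by simp)
        rw [← this]
        exact h1
      · simp only [List.map_cons, List.cons_append, List.cons.injEq] at h3
        have h8 : (u.1 ++ [b]) ++ x' = u.1 ++ (b :: x') := by simp
        have h4 : (u.1 ++ [b]).length ≤ l := by
          rw [← h8, List.length_append] at h
          omega
        refine ⟨.inl ⟨u.1 ++ [b], h4⟩, ?_, (ih _).2 ⟨x', by rw [h8]; exact h, m, y, ?_, h2,
          h3.2⟩⟩
        · exact (mem_δ e R1 R2).2 ⟨b, h3.1, rfl⟩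
        · have : (⟨(u.1 ++ [b]) ++ x', by rw [h8]; exact h⟩ : V l) = ⟨u.1 ++ (b :: x'), h⟩ :=
            Subtype.ext h8
          rw [this]
          exact h1

theorem aut_lang {C : Finset (V l × V l)}
    (hC : ∀ x y, (x, y) ∈ C ↔ ∃ m, (x, m) ∈ R1 ∧ (m, y) ∈ R2) :
    (aut e R1 R2).lang = LC e C := by
  ext w
  change (aut e R1 R2).acc (.inl ⟨[], Nat.zero_le _⟩) w ↔ _
  rw [acc_pre]
  constructor
  · rintro ⟨x', h, m, y, h1, h2, h3⟩
    exact ⟨⟨x', h⟩, y, (hC _ _).2 ⟨m, h1, h2⟩, h3⟩
  · rintro ⟨x, y, h1, h2⟩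
    obtain ⟨m, h3, h4⟩ := (hC _ _).1 h1
    exact ⟨x.toList, by simp, m, y, h3, h4, h2⟩

theorem aut_card : Fintype.card (aut e R1 R2).Q ≤ 4 * 2 ^ l + Fintype.card Mi := by
  change Fintype.card (Pre l ⊕ (Mi ⊕ Pre l)) ≤ _
  rw [Fintype.card_sum, Fintype.card_sum]
  have := card_Pre l
  omega

theorem aut_δ_card : (aut e R1 R2).δ.card ≤ 4 * 2 ^ l + R1.card + R2.card := by
  let f : Pre l ⊕ (R1 ⊕ (R2 ⊕ Pre l)) → (Pre l ⊕ (Mi ⊕ Pre l)) × S × (Pre l ⊕ (Mi ⊕ Pre l)) :=
    fun t => match t with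
    | .inl u => (.inl ⟨u.1.dropLast, by have := u.2; simp; omega⟩, e (u.1.getLast?.getD false),
        .inl u)
    | .inr (.inl r) => (.inl ⟨r.1.1.toList, by simp⟩, e false, .inr (.inl r.1.2))
    | .inr (.inr (.inl r)) => (.inr (.inl r.1.1), e false, .inr (.inr ⟨r.1.2.toList, by simp⟩))
    | .inr (.inr (.inr v)) => (.inr (.inr v), e (v.1.head?.getD false),
        .inr (.inr ⟨v.1.tail, by have := v.2; simp; omega⟩))
  have h1 : (aut e R1 R2).δ ⊆ Finset.univ.image f := by
    rintro ⟨q, a, q'⟩ h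
    replace h := (mem_δ e R1 R2).1 h
    refine Finset.mem_image.2 ?_
    rcases q with u | m | v <;> rcases q' with u' | m' | v' <;> try exact h.elim
    · obtain ⟨b, h2, h3⟩ := h
      refine ⟨.inl u', Finset.mem_univ _, ?_⟩
      simp only [f]
      have h4 : (⟨u'.1.dropLast, by have := u'.2; simp; omega⟩ : Pre l) = u :=
        Subtype.ext (by simp [h3])
      rw [h4, h2, h3]
      simp only [List.getLast?_append, List.getLast?_singleton, Option.some_or,
        Option.getD_some]
      rfl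
    · obtain ⟨h2, h3, h4⟩ := h
      refine ⟨.inr (.inl ⟨(⟨u.1, h3⟩, m'), h4⟩), Finset.mem_univ _, ?_⟩
      simp only [f, h2]
      rfl
    · obtain ⟨h2, h3, h4⟩ := h
      refine ⟨.inr (.inr (.inl ⟨(m, ⟨v'.1, h3⟩), h4⟩)), Finset.mem_univ _, ?_⟩
      simp only [f, h2]
      rfl
    · obtain ⟨b, h2, h3⟩ := h
      refine ⟨.inr (.inr (.inr v)), Finset.mem_univ _, ?_⟩
      simp only [f]
      have h4 : (⟨v.1.tail, by have := v.2; simp; omega⟩ : Pre l) = v' :=
        Subtype.ext (by simp [h3])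
      rw [h4, h2, h3]
      simp only [List.head?_cons, Option.getD_some]
      rfl
  have h2 := (Finset.card_le_card h1).trans Finset.card_image_le
  rw [Finset.card_univ, Fintype.card_sum, Fintype.card_sum, Fintype.card_sum,
    Fintype.card_coe, Fintype.card_coe] at h2
  have := card_Pre l
  omega

end Construction

theorem card_V (l : ℕ) : Fintype.card (V l) = 2 ^ l := by
  rw [card_vector, Fintype.card_bool]

/-- an automaton for `LC` with few states -/
theorem nsc_LC [Fintype S] (e : Bool → S) {l : ℕ} (C : Finset (V l × V l)) :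
    nsc (LC e C) ≤ 5 * 2 ^ l := by
  have h1 : (aut e (Finset.univ.filter fun t : V l × V l => t.1 = t.2) C).lang = LC e C := by
    refine aut_lang _ _ _ fun x y => ?_
    simp
  refine (nsc_le h1).trans ((aut_card _ _ _).trans ?_)
  rw [card_V]
  omega

/-- the first part of a word -/
def p1 {l s : ℕ} (y : V l) : V (l - s) := ⟨y.toList.take (l - s), by simp⟩

/-- the second part of a word -/
def p2 {l s : ℕ} (hs : s ≤ l) (y : V l) : V s := ⟨y.toList.drop (l - s), by simp; omega⟩

theorem p_inj {l s : ℕ} (hs : s ≤ l) {y y' : V l} (h1 : p1 (s := s) y = p1 y')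
    (h2 : p2 hs y = p2 hs y') : y = y' := by
  apply List.Vector.toList_injective
  have h3 : y.toList.take (l - s) = y'.toList.take (l - s) := congrArg Subtype.val h1
  have h4 : y.toList.drop (l - s) = y'.toList.drop (l - s) := congrArg Subtype.val h2
  rw [← List.take_append_drop (l - s) y.toList, h3, h4, List.take_append_drop]

/-- an automaton for `LC` with few transitions -/
theorem few_transitions [Fintype S] (e : Bool → S) {l : ℕ} (C : Finset (V l × V l)) {s : ℕ}
    (hs : s ≤ l) : ∃ A : Aut S, A.lang = LC e C ∧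
      A.δ.card ≤ 4 * 2 ^ l + 2 ^ l * 2 ^ (l - s) + 2 ^ l * 2 ^ 2 ^ s := by
  let pat : V l → V (l - s) → Finset (V s) := fun x y1 =>
    Finset.univ.filter fun y2 => ∃ y, (x, y) ∈ C ∧ p1 y = y1 ∧ p2 hs y = y2
  let R1 : Finset (V l × (V (l - s) × Finset (V s))) :=
    Finset.univ.image fun t : V l × V (l - s) => (t.1, (t.2, pat t.1 t.2))
  let R2 : Finset ((V (l - s) × Finset (V s)) × V l) :=
    (Finset.univ.filter fun t : V l × Finset (V s) => p2 hs t.1 ∈ t.2).image
      fun t => ((p1 t.1, t.2), t.1)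
  refine ⟨aut e R1 R2, ?_, (aut_δ_card e R1 R2).trans ?_⟩
  · refine aut_lang _ _ _ fun x y => ?_
    constructor
    · intro h
      refine ⟨(p1 y, pat x (p1 y)), ?_, ?_⟩
      · exact Finset.mem_image.2 ⟨(x, p1 y), Finset.mem_univ _, rfl⟩
      · refine Finset.mem_image.2 ⟨(y, pat x (p1 y)), ?_, rfl⟩
        simp only [Finset.mem_filter, Finset.mem_univ, true_and, pat]
        exact ⟨y, h, rfl, rfl⟩
    · rintro ⟨⟨y1, P⟩, h1, h2⟩
      obtain ⟨⟨x', y1'⟩, _, h3⟩ := Finset.mem_image.1 h1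
      obtain ⟨⟨y', P'⟩, h4, h5⟩ := Finset.mem_image.1 h2
      simp only [Prod.mk.injEq] at h3 h5
      obtain ⟨rfl, rfl, rfl⟩ := h3
      obtain ⟨⟨h6, rfl⟩, rfl⟩ := h5
      simp only [Finset.mem_filter, Finset.mem_univ, true_and, pat] at h4
      obtain ⟨y'', h7, h8, h9⟩ := h4
      rw [← p_inj hs (h8.trans h6.symm) h9]
      exact h7
  · have h1 : R1.card ≤ 2 ^ l * 2 ^ (l - s) := by
      refine Finset.card_image_le.trans (le_of_eq ?_)
      rw [Finset.card_univ, Fintype.card_prod, card_V, card_V]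
    have h2 : R2.card ≤ 2 ^ l * 2 ^ 2 ^ s := by
      refine Finset.card_image_le.trans ((Finset.card_filter_le _ _).trans (le_of_eq ?_))
      rw [Finset.card_univ, Fintype.card_prod, card_V, Fintype.card_finset, card_V]
    omega

/-! ### Counting small automata -/

/-- the automata on the state set `Fin N` with at most `t` transitions -/
abbrev Code (S : Type) (N t : ℕ) : Type :=
  Fin N × Finset (Fin N) × {δ : Finset (Fin N × S × Fin N) // δ.card ≤ t}

/-- the automaton with a given code -/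
def toAut {N t : ℕ} (c : Code S N t) : Aut S := ⟨Fin N, c.1, c.2.1, c.2.2.1⟩

theorem exists_code {A : Aut S} {N t : ℕ} (hN : Fintype.card A.Q ≤ N) (ht : A.δ.card ≤ t) :
    ∃ c : Code S N t, (toAut c).lang = A.lang := by
  obtain ⟨f⟩ : Nonempty (A.Q ↪ Fin N) :=
    Function.Embedding.nonempty_of_card_le (by rw [Fintype.card_fin]; exact hN)
  let F : A.Q × S × A.Q ↪ Fin N × S × Fin N :=
    ⟨fun t => (f t.1, t.2.1, f t.2.2), by
      rintro ⟨a, b, c⟩ ⟨a', b', c'⟩ h
      have h0 : (f a, b, f c) = (f a', b', f c') := h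
      simp only [Prod.mk.injEq] at h0
      obtain ⟨h1, h2, h3⟩ := h0
      rw [f.injective h1, h2, f.injective h3]⟩
  refine ⟨(f A.start, A.final.map f, ⟨A.δ.map F, by rw [Finset.card_map]; exact ht⟩), ?_⟩
  have key : ∀ (w : List S) (q : A.Q), (toAut (f A.start, A.final.map f,
      (⟨A.δ.map F, by rw [Finset.card_map]; exact ht⟩ :
        {δ : Finset (Fin N × S × Fin N) // δ.card ≤ t}))).acc (f q) w ↔ A.acc q w := by
    intro w
    induction w with
    | nil =>
      intro q
      change f q ∈ A.final.map f ↔ q ∈ A.final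
      exact Finset.mem_map' f
    | cons a w ih =>
      intro q
      constructor
      · rintro ⟨q', h1, h2⟩
        have h3 : (f q, a, q') ∈ A.δ.map F := h1
        obtain ⟨⟨r, a', r'⟩, h4, h5⟩ := Finset.mem_map.1 h3
        have h6 : (f r, a', f r') = (f q, a, q') := h5
        have h7 := f.injective (congrArg Prod.fst h6)
        have h8 : a' = a := congrArg (fun t => t.2.1) h6
        have h9 : f r' = q' := congrArg (fun t => t.2.2) h6
        subst h8 h9
        rw [h7] at h4
        exact ⟨r', h4, (ih r').1 h2⟩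
      · rintro ⟨q', h1, h2⟩
        refine ⟨f q', ?_, (ih q').2 h2⟩
        exact Finset.mem_map.2 ⟨(q, a, q'), h1, rfl⟩
  ext w
  exact key w A.start

theorem count_small (X : Type) [Fintype X] (t B : ℕ) (hB : 1 ≤ B) :
    Fintype.card {δ : Finset X // δ.card ≤ t} * B ^ Fintype.card X ≤
      B ^ t * (1 + B) ^ Fintype.card X := by
  rw [Fintype.card_subtype]
  have h1 := Finset.sum_pow_mul_eq_add_pow 1 B (Finset.univ : Finset X)
  rw [Finset.card_univ] at h1
  rw [← h1, Finset.powerset_univ, ← smul_eq_mul, ← Finset.sum_const, Finset.mul_sum]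
  refine (Finset.sum_le_sum fun δ hδ => ?_).trans
    (Finset.sum_le_sum_of_subset (Finset.filter_subset _ _))
  rw [one_pow, one_mul, ← pow_add]
  refine Nat.pow_le_pow_right hB ?_
  have h2 := (Finset.mem_filter.1 hδ).2
  have h3 := Finset.card_le_univ δ
  omega

/-- the main counting inequality -/
theorem counting [Fintype S] {e : Bool → S} (he : Function.Injective e) {K : ℕ} (hK : 1 ≤ K)
    (h : ∀ L : Language S, L.IsRegular → T L ≤ K * nsc L) {l s B : ℕ} (hs : s ≤ l)
    (hB : 1 ≤ B) :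
    2 ^ (2 ^ l * 2 ^ l) * B ^ (5 * K * 2 ^ l * (Fintype.card S * (5 * K * 2 ^ l))) ≤
      (5 * K * 2 ^ l) * 2 ^ (5 * K * 2 ^ l) *
        (B ^ (4 * 2 ^ l + 2 ^ l * 2 ^ (l - s) + 2 ^ l * 2 ^ 2 ^ s) *
          (1 + B) ^ (5 * K * 2 ^ l * (Fintype.card S * (5 * K * 2 ^ l)))) := by
  set N := 5 * K * 2 ^ l with hN
  set t := 4 * 2 ^ l + 2 ^ l * 2 ^ (l - s) + 2 ^ l * 2 ^ 2 ^ s with ht
  have h1 : ∀ C : Finset (V l × V l), ∃ c : Code S N t, (toAut c).lang = LC e C := by
    intro C
    obtain ⟨A, hA1, hA2⟩ := few_transitions e C hs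
    obtain ⟨D, hD1, hD2, hD3⟩ := exists_T hA1
    have h2 : T (LC e C) ≤ N := by
      have h3 := h (LC e C) (hA1 ▸ A.regular)
      have h4 := nsc_LC e C
      calc T (LC e C) ≤ K * nsc (LC e C) := h3
        _ ≤ K * (5 * 2 ^ l) := Nat.mul_le_mul_left _ h4
        _ = N := by rw [hN]; ring
    obtain ⟨c, hc⟩ := exists_code (A := D) (N := N) (t := t) (by rw [hD3]; exact h2)
      (hD2.trans hA2)
    exact ⟨c, hc.trans hD1⟩
  choose F hF using h1
  have hFi : Function.Injective F := by
    intro C D hCD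
    apply LC_injective he l
    rw [← hF C, ← hF D, hCD]
  have h2 := Fintype.card_le_of_injective F hFi
  rw [Fintype.card_finset, Fintype.card_prod, Fintype.card_prod, Fintype.card_prod,
    card_V, Fintype.card_fin, Fintype.card_finset, Fintype.card_fin] at h2
  have h3 := count_small (Fin N × S × Fin N) t B hB
  rw [Fintype.card_prod, Fintype.card_prod, Fintype.card_fin] at h3
  calc 2 ^ (2 ^ l * 2 ^ l) * B ^ (N * (Fintype.card S * N))
      ≤ (N * (2 ^ N * Fintype.card {δ : Finset (Fin N × S × Fin N) // δ.card ≤ t})) *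
        B ^ (N * (Fintype.card S * N)) := Nat.mul_le_mul_right _ h2
    _ = N * 2 ^ N * (Fintype.card {δ : Finset (Fin N × S × Fin N) // δ.card ≤ t} *
        B ^ (N * (Fintype.card S * N))) := by ring
    _ ≤ _ := Nat.mul_le_mul_left _ h3

theorem unbounded [Fintype S] {e : Bool → S} (he : Function.Injective e) (K : ℕ) (hK : 1 ≤ K) :
    ¬ ∀ L : Language S, L.IsRegular → T L ≤ K * nsc L := by
  intro h
  obtain ⟨σ, hσ⟩ : ∃ σ, σ = Fintype.card S := ⟨_, rfl⟩
  have hσ1 : 1 ≤ σ := by
    rw [hσ]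
    exact Fintype.card_pos_iff.2 ⟨e false⟩
  obtain ⟨B, hBdef⟩ : ∃ B, B = 100 * σ * K ^ 2 := ⟨_, rfl⟩
  have hB : 1 ≤ B := by
    rw [hBdef]
    have := Nat.mul_pos hσ1 (pow_pos hK 2)
    nlinarith
  have hBr : (1 : ℝ) ≤ B := by exact_mod_cast hB
  have hB0 : (0 : ℝ) < B := by linarith
  have hlogB : 0 ≤ Real.log B := Real.log_nonneg hBr
  obtain ⟨s, hs⟩ := exists_nat_gt (4 * (10 * K + 6 * Real.log B))
  obtain ⟨g, hg⟩ : ∃ g, g = 2 ^ s := ⟨_, rfl⟩
  have hsg : s < g := by rw [hg]; exact Nat.lt_two_pow_self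
  have hg4 : 4 * (10 * K + 6 * Real.log B) ≤ g := by
    have : (s : ℝ) ≤ g := by exact_mod_cast hsg.le
    linarith
  have hcount := counting he hK h (l := 2 * g) (s := s) (B := B) (by omega) hB
  rw [← hg, ← hσ] at hcount
  -- notation
  obtain ⟨G, hG⟩ : ∃ G, G = 2 ^ g := ⟨_, rfl⟩
  obtain ⟨n, hn⟩ : ∃ n, n = 2 ^ (2 * g) := ⟨_, rfl⟩
  obtain ⟨m, hm⟩ : ∃ m, m = 2 ^ (2 * g - s) := ⟨_, rfl⟩
  rw [← hG, ← hn, ← hm] at hcount
  have hnG : n = G * G := by rw [hn, hG, ← pow_add]; congr 1; omega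
  have hmg : m * g = n := by
    calc m * g = 2 ^ (2 * g - s) * 2 ^ s := by rw [hm, ← hg]
      _ = 2 ^ (2 * g - s + s) := (pow_add _ _ _).symm
      _ = n := by rw [Nat.sub_add_cancel (by omega), hn]
  have hgG : g < G := by rw [hG]; exact Nat.lt_two_pow_self
  have hg1 : 1 ≤ g := by omega
  have hn1 : 1 ≤ n := by rw [hn]; exact Nat.one_le_two_pow
  have hgr : (0 : ℝ) < g := by exact_mod_cast hg1
  have hnr : (1 : ℝ) ≤ n := by exact_mod_cast hn1
  have hGr : (0 : ℝ) < G := by
    have : 0 < G := by omega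
    exact_mod_cast this
  have hnGr : (n : ℝ) = G * G := by exact_mod_cast hnG
  have hmgr : (m : ℝ) * g = n := by exact_mod_cast hmg
  have hgGr : (g : ℝ) ≤ G := by exact_mod_cast hgG.le
  have hKr : (1 : ℝ) ≤ K := by exact_mod_cast hK
  have hσr : (1 : ℝ) ≤ σ := by exact_mod_cast hσ1
  obtain ⟨N, hN⟩ : ∃ N, N = 5 * K * n := ⟨_, rfl⟩
  rw [← hN] at hcount
  have hNr : (N : ℝ) = 5 * K * n := by exact_mod_cast hN
  have hN1 : (1 : ℝ) ≤ N := by rw [hNr]; nlinarith
  have hcr : (2 : ℝ) ^ (n * n) * (B : ℝ) ^ (N * (σ * N)) ≤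
      N * 2 ^ N * ((B : ℝ) ^ (4 * n + n * m + n * G) * (1 + B) ^ (N * (σ * N))) := by
    exact_mod_cast hcount
  have hlog := Real.log_le_log (by positivity) hcr
  rw [Real.log_mul (by positivity) (by positivity), Real.log_mul (by positivity) (by positivity),
    Real.log_mul (by positivity) (by positivity), Real.log_mul (by positivity) (by positivity),
    Real.log_pow, Real.log_pow, Real.log_pow, Real.log_pow, Real.log_pow] at hlog
  push_cast at hlog
  have hl1 : Real.log (1 + B) ≤ Real.log B + 1 / B := by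
    have h1 : (1 + B : ℝ) = B * (1 + 1 / B) := by field_simp; ring
    rw [h1, Real.log_mul (by positivity) (by positivity)]
    have h2 : Real.log (1 + 1 / B) ≤ (1 + 1 / (B : ℝ)) - 1 :=
      Real.log_le_sub_one_of_pos (by positivity)
    linarith
  have hlN : Real.log N ≤ N := by
    have := Real.log_le_sub_one_of_pos (show (0 : ℝ) < N by linarith)
    linarith
  have hl2 : Real.log 2 ≤ 1 := by
    have := Real.log_two_lt_d9
    linarith
  have hl2' : (0.69 : ℝ) < Real.log 2 := by
    have := Real.log_two_gt_d9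
    linarith
  have hMB : (N : ℝ) * (σ * N) * (1 / B) = (n : ℝ) * n / 4 := by
    have hBc : (B : ℝ) = 100 * σ * K ^ 2 := by exact_mod_cast hBdef
    rw [hBc, hNr]
    field_simp
    ring
  have h1 : (N : ℝ) * (σ * N) * Real.log (1 + B) ≤
      (N : ℝ) * (σ * N) * Real.log B + (n : ℝ) * n / 4 := by
    rw [← hMB, ← mul_add]
    exact mul_le_mul_of_nonneg_left hl1 (by positivity)
  have h2 : (N : ℝ) * Real.log 2 ≤ N := by nlinarith
  have hn0 : (0 : ℝ) < n := by linarith
  have hnn : (0 : ℝ) < (n : ℝ) * n := mul_pos hn0 hn0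
  have h3 : (n : ℝ) * n * Real.log 2 ≤
      10 * K * n + (4 * n + n * m + n * G) * Real.log B + (n : ℝ) * n / 4 := by
    linarith
  -- `10 K n + (4 n + n m + n G) log B ≤ n² / 4`
  have hGG : (g : ℝ) * G ≤ n := by
    rw [hnGr]
    exact mul_le_mul_of_nonneg_right hgGr hGr.le
  have hG1 : (1 : ℝ) ≤ G := by
    have : 1 ≤ G := by omega
    exact_mod_cast this
  have hgn : (g : ℝ) ≤ n := by
    refine le_trans ?_ hGG
    exact le_mul_of_one_le_right hgr.le hG1
  have e1 : (g : ℝ) * n ≤ n * n := mul_le_mul_of_nonneg_right hgn hn0.le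
  have e2 : (g : ℝ) * (n * m) = n * n := by
    calc (g : ℝ) * (n * m) = n * (m * g) := by ring
      _ = n * n := by rw [hmgr]
  have e3 : (g : ℝ) * (n * G) ≤ n * n := by
    calc (g : ℝ) * (n * G) = n * (g * G) := by ring
      _ ≤ n * n := mul_le_mul_of_nonneg_left hGG hn0.le
  have e4 : (g : ℝ) * (4 * n + n * m + n * G) ≤ 6 * (n * n) := by
    have : (g : ℝ) * (4 * n + n * m + n * G) = 4 * (g * n) + g * (n * m) + g * (n * G) := by ring
    rw [this]
    linarith
  have e5 : (g : ℝ) * (4 * n + n * m + n * G) * Real.log B ≤ 6 * (n * n) * Real.log B :=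
    mul_le_mul_of_nonneg_right e4 hlogB
  have e6 : 10 * (K : ℝ) * (g * n) ≤ 10 * K * (n * n) :=
    mul_le_mul_of_nonneg_left e1 (by linarith)
  have h4 : (g : ℝ) * (10 * K * n + (4 * n + n * m + n * G) * Real.log B) ≤
      (n * n) * (10 * K + 6 * Real.log B) := by
    have : (g : ℝ) * (10 * K * n + (4 * n + n * m + n * G) * Real.log B) =
      10 * K * (g * n) + g * (4 * n + n * m + n * G) * Real.log B := by ring
    rw [this]
    have h' : (n * n : ℝ) * (10 * K + 6 * Real.log B) =
      10 * K * (n * n) + 6 * (n * n) * Real.log B := by ring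
    rw [h']
    exact add_le_add e6 e5
  have h5 : (n * n : ℝ) * (10 * K + 6 * Real.log B) ≤ (n * n) * (g / 4) :=
    mul_le_mul_of_nonneg_left (by linarith) hnn.le
  have h6 : 10 * K * n + (4 * n + n * m + n * G) * Real.log B ≤ (n : ℝ) * n / 4 := by
    have h7 : (g : ℝ) * (10 * K * n + (4 * n + n * m + n * G) * Real.log B) ≤
        g * ((n : ℝ) * n / 4) := by
      calc _ ≤ _ := h4
        _ ≤ _ := h5
        _ = _ := by ring
    exact le_of_mul_le_mul_left h7 hgr
  have h8 : (n : ℝ) * n * 0.69 < n * n * Real.log 2 := mul_lt_mul_of_pos_left hl2' hnn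
  linarith

/-- **The conjecture fails**: over every alphabet with at least two letters the ratio
`T(L) / nsc(L)` is unbounded on the regular languages. -/
theorem result (S : Type) [Fintype S] (hS : 2 ≤ Fintype.card S) :
    (∀ K : ℕ, ∃ L : Language S, L.IsRegular ∧ K * nsc L < T L) ∧
    ¬ ∃ c : ℝ, ∀ L : Language S, L.IsRegular → (T L : ℝ) ≤ c * nsc L := by
  obtain ⟨a, b, hab⟩ := Fintype.one_lt_card_iff.1 (show 1 < Fintype.card S by omega)
  have he : Function.Injective (fun t : Bool => if t = true then a else b) := by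
    intro x y h
    cases x <;> cases y <;> simp_all
  have h1 : ∀ K : ℕ, ∃ L : Language S, L.IsRegular ∧ K * nsc L < T L := by
    intro K
    by_contra hcon
    push Not at hcon
    exact unbounded he (K + 1) (by omega) fun L hL => (hcon L hL).trans
      (Nat.mul_le_mul_right _ (by omega))
  refine ⟨h1, ?_⟩
  rintro ⟨c, hc⟩
  obtain ⟨K, hK⟩ := exists_nat_ge c
  obtain ⟨L, hL, hlt⟩ := h1 K
  have h2 := hc L hL
  have h3 : (K : ℝ) * nsc L < T L := by exact_mod_cast hlt
  have h4 : c * nsc L ≤ K * nsc L := mul_le_mul_of_nonneg_right hK (Nat.cast_nonneg _)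
  linarith

end Pool.Agent.Results.MP_48fb2a_lc.UnboundedRatio
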